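import Pool.Agent.Q130.FR.Defs

/-!
# Chains of Petersen graphs
-/

namespace Q130.FR

open SimpleGraph

/-- Neighbours in the Petersen graph (outer cycle `0..4`, inner cycle `5 7 9 6 8`). -/
def nbr : Fin 10 → Fin 3 → Fin 10 :=
  ![![1, 5, 4], ![0, 2, 6], ![1, 3, 7], ![2, 4, 8], ![3, 9, 0], ![0, 7, 8], ![1, 8, 9],
    ![2, 5, 9], ![3, 6, 5], ![4, 6, 7]]

/-- The slot of the reverse edge. -/
def mate : Fin 10 → Fin 3 → Fin 3 :=
  ![![0, 0, 2], ![0, 0, 0], ![1, 0, 0], ![1, 0, 0], ![1, 0, 2], ![1, 1, 2], ![2, 1, 1],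
    ![2, 1, 2], ![2, 1, 2], ![1, 2, 2]]

theorem nbr_mate : ∀ a t, nbr (nbr a t) (mate a t) = a := by decide

variable {n : ℕ}

/-- The neighbours in the chain of `n` Petersen graphs. -/
def NB (x : Fin n × Fin 10) (t : Fin 3) : Fin n × Fin 10 :=
  if x.1.val ≠ 0 ∧ t = 2 ∧ (x.2 = 0 ∨ x.2 = 4) then
    (⟨x.1.val - 1, lt_of_le_of_lt (Nat.sub_le _ _) x.1.isLt⟩, if x.2 = 0 then 5 else 8)
  else if h : x.1.val + 1 < n ∧ t = 2 ∧ (x.2 = 5 ∨ x.2 = 8) then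
    (⟨x.1.val + 1, h.1⟩, if x.2 = 5 then 0 else 4)
  else (x.1, nbr x.2 t)

theorem NB_NB (x : Fin n × Fin 10) (t : Fin 3) : NB (NB x t) (mate x.2 t) = x := by
  obtain ⟨⟨i, hi⟩, a⟩ := x
  rcases i with _ | j
  · by_cases h1 : 1 < n <;> fin_cases a <;> fin_cases t <;> simp [NB, nbr, mate, h1]
  · by_cases h1 : j + 1 + 1 < n <;> fin_cases a <;> fin_cases t <;>
      simp [NB, nbr, mate, h1, hi]

theorem NB_inj (x : Fin n × Fin 10) : Function.Injective (NB x) := by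
  obtain ⟨⟨i, hi⟩, a⟩ := x
  intro s t
  rcases i with _ | j
  · by_cases h1 : 1 < n <;> fin_cases a <;> fin_cases s <;> fin_cases t <;>
      simp [NB, nbr, h1]
  · by_cases h1 : j + 1 + 1 < n <;> fin_cases a <;> fin_cases s <;> fin_cases t <;>
      simp [NB, nbr, h1]

theorem NB_ne (x : Fin n × Fin 10) (t : Fin 3) : NB x t ≠ x := by
  obtain ⟨⟨i, hi⟩, a⟩ := x
  rcases i with _ | j
  · by_cases h1 : 1 < n <;> fin_cases a <;> fin_cases t <;> simp [NB, nbr, h1]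
  · by_cases h1 : j + 1 + 1 < n <;> fin_cases a <;> fin_cases t <;> simp [NB, nbr, h1]

/-- The chain of `n` Petersen graphs. -/
def chain (n : ℕ) : SimpleGraph (Fin n × Fin 10) where
  Adj x y := ∃ t, NB x t = y
  symm := ⟨by
    rintro x y ⟨t, rfl⟩
    exact ⟨mate x.2 t, NB_NB x t⟩⟩
  loopless := ⟨by
    rintro x ⟨t, ht⟩
    exact NB_ne x t ht⟩

theorem adj_NB (x : Fin n × Fin 10) (t : Fin 3) : (chain n).Adj x (NB x t) := ⟨t, rfl⟩

theorem cubic (x : Fin n × Fin 10) : ((chain n).neighborSet x).ncard = 3 := by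
  have h : (chain n).neighborSet x = Set.range (NB x) := by
    ext y; rfl
  rw [h, ← Set.image_univ, Set.ncard_image_of_injective _ (NB_inj x)]
  simp [Set.ncard_univ]

/-! ## Petersen graph -/

theorem key : ∀ o0 o1 o2 o3 o4 i0 : ZMod 4, ¬ (o0 ≠ 0 ∧ o1 ≠ 0 ∧ o2 ≠ 0 ∧ o3 ≠ 0 ∧ o4 ≠ 0 ∧
    i0 ≠ 0 ∧ o4 - o0 ≠ 0 ∧ o0 - o1 ≠ 0 ∧ o1 - o2 ≠ 0 ∧ o2 - o3 ≠ 0 ∧ o3 - o4 ≠ 0 ∧
    i0 - (o4 - o0) ≠ 0 ∧ i0 + (o1 - o2) ≠ 0 ∧ i0 + (o1 - o2) + (o3 - o4) ≠ 0 ∧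
    i0 + (o1 - o2) + (o3 - o4) + (o0 - o1) ≠ 0) := by
  decide +kernel

theorem cast_ne {z : ℤ} (h : |z| ≤ 3) (h0 : z ≠ 0) : (z : ZMod 4) ≠ 0 := by
  intro hc
  rw [ZMod.intCast_zmod_eq_zero_iff_dvd] at hc
  rw [abs_le] at h
  obtain ⟨k, hk⟩ := hc
  omega

theorem petersen (g : Fin 10 → Fin 3 → ℤ) (hs : ∀ a t, g a t = - g (nbr a t) (mate a t))
    (hc : ∀ a, g a 0 + g a 1 + g a 2 = 0) (hb : ∀ a t, |g a t| ≤ 3) :
    ∃ a t, g a t = 0 := by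
  by_contra hcon
  push Not at hcon
  have c0 := hc 0
  have c1 := hc 1
  have c2 := hc 2
  have c3 := hc 3
  have c4 := hc 4
  have c5 := hc 5
  have c6 := hc 6
  have c7 := hc 7
  have c8 := hc 8
  have c9 := hc 9
  have s1 : g 0 2 = - g 4 2 := hs 0 2
  have s2 : g 1 0 = - g 0 0 := hs 1 0
  have s3 : g 2 0 = - g 1 1 := hs 2 0
  have s4 : g 3 0 = - g 2 1 := hs 3 0
  have s5 : g 4 0 = - g 3 1 := hs 4 0
  have s6 : g 5 0 = - g 0 1 := hs 5 0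
  have s7 : g 6 0 = - g 1 2 := hs 6 0
  have s8 : g 7 0 = - g 2 2 := hs 7 0
  have s9 : g 8 0 = - g 3 2 := hs 8 0
  have s10 : g 9 0 = - g 4 1 := hs 9 0
  have s11 : g 7 1 = - g 5 1 := hs 7 1
  have s12 : g 9 2 = - g 7 2 := hs 9 2
  have s13 : g 6 2 = - g 9 1 := hs 6 2
  have s14 : g 8 1 = - g 6 1 := hs 8 1
  have s15 : g 5 2 = - g 8 2 := hs 5 2
  have e0 : g 0 1 = g 4 2 - g 0 0 := by linarith
  have e1 : g 1 2 = g 0 0 - g 1 1 := by linarith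
  have e2 : g 2 2 = g 1 1 - g 2 1 := by linarith
  have e3 : g 3 2 = g 2 1 - g 3 1 := by linarith
  have e4 : g 4 1 = g 3 1 - g 4 2 := by linarith
  have f0 : g 8 2 = g 5 1 - (g 4 2 - g 0 0) := by linarith
  have f1 : g 7 2 = g 5 1 + (g 1 1 - g 2 1) := by linarith
  have f2 : g 9 1 = g 5 1 + (g 1 1 - g 2 1) + (g 3 1 - g 4 2) := by linarith
  have f3 : g 6 1 = g 5 1 + (g 1 1 - g 2 1) + (g 3 1 - g 4 2) + (g 0 0 - g 1 1) := by linarith
  have nz : ∀ a t, ((g a t : ℤ) : ZMod 4) ≠ 0 := fun a t => cast_ne (hb a t) (hcon a t)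
  refine key (g 0 0) (g 1 1) (g 2 1) (g 3 1) (g 4 2) (g 5 1) ⟨nz _ _, nz _ _, nz _ _, nz _ _,
    nz _ _, nz _ _, ?_, ?_, ?_, ?_, ?_, ?_, ?_, ?_, ?_⟩
  · have := nz 0 1; rw [e0] at this; push_cast at this; exact this
  · have := nz 1 2; rw [e1] at this; push_cast at this; exact this
  · have := nz 2 2; rw [e2] at this; push_cast at this; exact this
  · have := nz 3 2; rw [e3] at this; push_cast at this; exact this
  · have := nz 4 1; rw [e4] at this; push_cast at this; exact this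
  · have := nz 8 2; rw [f0] at this; push_cast at this; exact this
  · have := nz 7 2; rw [f1] at this; push_cast at this; exact this
  · have := nz 9 1; rw [f2] at this; push_cast at this; exact this
  · have := nz 6 1; rw [f3] at this; push_cast at this; exact this

end Q130.FR
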