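import Pool.Agent.Q130.FR.Flow

/-!
# The chain is bridgeless, connected and has resistance at most two
-/

namespace Q130.FR

open SimpleGraph

variable {n : ℕ}

/-! ## Colouring -/

/-- Colours of pairs inside a copy. -/
def colP (a b : Fin 10) : Fin 4 :=
  if (a = 0 ∧ b = 4) ∨ (a = 4 ∧ b = 0) ∨ (a = 5 ∧ b = 8) ∨ (a = 8 ∧ b = 5) then 3
  else if a.val + 5 = b.val ∨ b.val + 5 = a.val then 2
  else if (a = 0 ∧ b = 1) ∨ (a = 1 ∧ b = 0) ∨ (a = 2 ∧ b = 3) ∨ (a = 3 ∧ b = 2) ∨
    (a = 5 ∧ b = 7) ∨ (a = 7 ∧ b = 5) ∨ (a = 9 ∧ b = 6) ∨ (a = 6 ∧ b = 9) then 0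
  else 1

theorem colP_symm : ∀ a b, colP a b = colP b a := by decide

/-- The colour function. -/
def colF (x y : Fin n × Fin 10) : Fin 4 :=
  if x.1 = y.1 then colP x.2 y.2
  else if (x.2 = 0 ∨ x.2 = 5) ∧ (y.2 = 0 ∨ y.2 = 5) then 1 else 0

theorem colF_symm (x y : Fin n × Fin 10) : colF x y = colF y x := by
  unfold colF
  rw [colP_symm]
  by_cases h : x.1 = y.1
  · rw [if_pos h, if_pos h.symm]
  · rw [if_neg h, if_neg (show ¬ y.1 = x.1 from fun h' => h h'.symm)]
    simp only [and_comm]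

/-- The 4-edge-colouring. -/
def col (e : Sym2 (Fin n × Fin 10)) : Fin 4 :=
  Sym2.lift ⟨colF, colF_symm⟩ e

theorem col_ed (x : Fin n × Fin 10) (t : Fin 3) : col (ed x t) = colF x (NB x t) := rfl

/-- Colours of the slots; `lo` and `hi` say whether there is a copy before and after. -/
def sc (lo hi : Bool) (a : Fin 10) (t : Fin 3) : Fin 4 :=
  if lo = true ∧ t = 2 ∧ (a = 0 ∨ a = 4) then (if a = 0 then 1 else 0)
  else if hi = true ∧ t = 2 ∧ (a = 5 ∨ a = 8) then (if a = 5 then 1 else 0)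
  else colP a (nbr a t)

theorem sc_inj : ∀ (lo hi : Bool) (a : Fin 10) (s t : Fin 3), s ≠ t → sc lo hi a s ≠ sc lo hi a t := by
  decide

theorem col_sc (x : Fin n × Fin 10) (t : Fin 3) :
    col (ed x t) = sc (decide (x.1.val ≠ 0)) (decide (x.1.val + 1 < n)) x.2 t := by
  rw [col_ed]
  simp only [sc, decide_eq_true_eq]
  by_cases h1 : x.1.val ≠ 0 ∧ t = 2 ∧ (x.2 = 0 ∨ x.2 = 4)
  · rw [if_pos h1]
    unfold NB
    rw [if_pos h1]
    unfold colF
    rw [if_neg]
    · rcases h1.2.2 with h | h <;> simp [h]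
    · intro h
      have := congrArg Fin.val h
      simp only at this
      have := h1.1
      omega
  · rw [if_neg h1]
    by_cases h2 : x.1.val + 1 < n ∧ t = 2 ∧ (x.2 = 5 ∨ x.2 = 8)
    · rw [if_pos h2]
      unfold NB
      rw [if_neg h1, dif_pos h2]
      unfold colF
      rw [if_neg]
      · rcases h2.2.2 with h | h <;> simp [h]
      · intro h
        have := congrArg Fin.val h
        simp only at this
        omega
    · rw [if_neg h2]
      unfold NB
      rw [if_neg h1, dif_neg h2]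
      unfold colF
      rw [if_pos rfl]

theorem col_slots (x : Fin n × Fin 10) (s t : Fin 3) (hst : s ≠ t) :
    col (ed x s) ≠ col (ed x t) := by
  rw [col_sc, col_sc]
  exact sc_inj _ _ _ _ _ hst

theorem exists_slot {e : Sym2 (Fin n × Fin 10)} (he : e ∈ (chain n).edgeSet)
    {v : Fin n × Fin 10} (hv : v ∈ e) : ∃ t, e = ed v t := by
  induction e using Sym2.ind with
  | _ a b =>
    rw [Sym2.mem_iff] at hv
    rcases hv with rfl | rfl
    · obtain ⟨t, ht⟩ := he
      exact ⟨t, by rw [ed, ht]⟩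
    · obtain ⟨t, ht⟩ := (SimpleGraph.mem_edgeSet _).1 he |>.symm
      exact ⟨t, by rw [ed, ht, Sym2.eq_swap]⟩

theorem col_proper : Proper (chain n) (col (n := n)) := by
  rintro e he f hf hef ⟨v, hve, hvf⟩
  obtain ⟨s, rfl⟩ := exists_slot he hve
  obtain ⟨t, rfl⟩ := exists_slot hf hvf
  exact col_slots v s t (fun h => hef (by rw [h]))

theorem sc_three : ∀ (lo hi : Bool) (a : Fin 10) (t : Fin 3), sc lo hi a t = 3 →
    (lo = false ∧ ((a = 0 ∧ nbr a t = 4) ∨ (a = 4 ∧ nbr a t = 0))) ∨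
    (hi = false ∧ ((a = 5 ∧ nbr a t = 8) ∨ (a = 8 ∧ nbr a t = 5))) := by
  decide

theorem col_three (x : Fin n × Fin 10) (t : Fin 3) (h : col (ed x t) = 3) :
    (x.1.val = 0 ∧ ed x t = s((x.1, 0), (x.1, 4))) ∨
    (x.1.val + 1 = n ∧ ed x t = s((x.1, 5), (x.1, 8))) := by
  rw [col_sc] at h
  have hx := x.1.isLt
  have key : ∀ (hNB : NB x t = (x.1, nbr x.2 t)) (p q : Fin 10),
      ((x.2 = p ∧ nbr x.2 t = q) ∨ (x.2 = q ∧ nbr x.2 t = p)) → ed x t = s((x.1, p), (x.1, q)) := by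
    intro hNB p q hpq
    rw [ed, hNB, Sym2.eq_iff]
    rcases hpq with ⟨h1, h2⟩ | ⟨h1, h2⟩
    · left
      exact ⟨Prod.ext rfl h1, Prod.ext rfl h2⟩
    · right
      exact ⟨Prod.ext rfl h1, Prod.ext rfl h2⟩
  rcases sc_three _ _ _ _ h with ⟨h1, h2⟩ | ⟨h1, h2⟩
  · left
    simp only [ne_eq, decide_not, Bool.not_eq_false', decide_eq_true_eq] at h1
    refine ⟨h1, key ?_ 0 4 h2⟩
    unfold NB
    rw [if_neg (fun hh => hh.1 h1), dif_neg]
    rintro ⟨_, _, h3⟩
    rcases h2 with ⟨h2, _⟩ | ⟨h2, _⟩ <;> rw [h2] at h3 <;> revert h3 <;> decide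
  · right
    simp only [decide_eq_false_iff_not] at h1
    refine ⟨by omega, key ?_ 5 8 h2⟩
    unfold NB
    rw [if_neg, dif_neg (fun hh => h1 hh.1)]
    rintro ⟨_, _, h3⟩
    rcases h2 with ⟨h2, _⟩ | ⟨h2, _⟩ <;> rw [h2] at h3 <;> revert h3 <;> decide

theorem resistance_le (hn : 1 ≤ n) : resistance (chain n) ≤ 2 := by
  have h : {e | e ∈ (chain n).edgeSet ∧ col e = 3} ⊆
      {s((⟨0, hn⟩, 0), (⟨0, hn⟩, 4)), s((⟨n - 1, by omega⟩, 5), (⟨n - 1, by omega⟩, 8))} := by
    rintro e ⟨he, hc⟩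
    induction e using Sym2.ind with
    | _ a b =>
      obtain ⟨t, ht⟩ := exists_slot he (Sym2.mem_mk_left a b)
      rw [ht] at hc ⊢
      rcases col_three a t hc with ⟨h1, h2⟩ | ⟨h1, h2⟩
      · left
        rw [h2]
        have : a.1 = ⟨0, hn⟩ := Fin.ext h1
        rw [this]
      · right
        rw [h2]
        have : a.1 = ⟨n - 1, by omega⟩ := Fin.ext (by simp only; omega)
        rw [this]
        rfl
  have h2 := Set.ncard_le_ncard h (Set.toFinite _)
  have h3 := Set.ncard_insert_le (s((⟨0, hn⟩, 0), (⟨0, hn⟩, 4)) : Sym2 (Fin n × Fin 10))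
    {s((⟨n - 1, by omega⟩, 5), (⟨n - 1, by omega⟩, 8))}
  rw [Set.ncard_singleton] at h3
  refine le_trans (Nat.sInf_le ⟨col, col_proper, 3, rfl⟩) (le_trans h2 h3)

/-! ## Reachability -/

/-- `l` is a walk from `u` to `v`. -/
def okl {V : Type} (H : SimpleGraph V) : V → List V → V → Prop
  | u, [], v => u = v
  | u, w :: l, v => H.Adj u w ∧ okl H w l v

theorem okl.reach {V : Type} {H : SimpleGraph V} : ∀ {l : List V} {u v : V}, okl H u l v →
    H.Reachable u v
  | [], u, v, h => by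
    have : u = v := h
    rw [this]
  | w :: l, u, v, h => h.1.reachable.trans (okl.reach h.2)

/-- Inner adjacency. -/
def inn (a b : Fin 10) : Bool :=
  (nbr a 0 == b) || (nbr a 1 == b) || ((nbr a 2 == b) && a != 0 && a != 4 && a != 5 && a != 8)

theorem inn_adj (i : Fin n) {a b : Fin 10} (h : inn a b = true) : (chain n).Adj (i, a) (i, b) := by
  have h2 : ∃ t : Fin 3, (t = 2 → a ≠ 0 ∧ a ≠ 4 ∧ a ≠ 5 ∧ a ≠ 8) ∧ nbr a t = b := by
    revert a b; decide
  obtain ⟨t, h1, h3⟩ := h2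
  exact ⟨t, by rw [NB_inner i a t h1, h3]⟩

/-- Checks a walk of inner edges different from `{p, q}`. -/
def chk (p q : Fin 10) : Fin 10 → List (Fin 10) → Fin 10 → Bool
  | u, [], v => u == v
  | u, w :: l, v => inn u w && !((u == p && w == q) || (u == q && w == p)) && chk p q w l v

theorem chk_reach {H : SimpleGraph (Fin n × Fin 10)} (i : Fin n) (p q : Fin 10)
    (hH : ∀ a b, inn a b = true → ¬ ((a = p ∧ b = q) ∨ (a = q ∧ b = p)) → H.Adj (i, a) (i, b)) :
    ∀ (l : List (Fin 10)) (u v : Fin 10), chk p q u l v = true → H.Reachable (i, u) (i, v)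
  | [], u, v, h => by
    simp only [chk, beq_iff_eq] at h
    rw [h]
  | w :: l, u, v, h => by
    simp only [chk, Bool.and_eq_true, Bool.not_eq_true', Bool.or_eq_false_iff,
      Bool.and_eq_false_imp, beq_iff_eq, beq_eq_false_iff_ne] at h
    obtain ⟨⟨h1, h2, h3⟩, h4⟩ := h
    refine (hH u w h1 ?_).reachable.trans (chk_reach i p q hH l w v h4)
    rintro (⟨rfl, rfl⟩ | ⟨rfl, rfl⟩)
    · exact h2 rfl rfl
    · exact h3 rfl rfl

/-- Detours. -/
def det : Fin 10 → Fin 3 → List (Fin 10) :=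
  ![![[5, 7, 2, 1], [1, 2, 7, 5], [1, 2, 3, 4]],
    ![[2, 7, 5, 0], [0, 5, 7, 2], [2, 3, 8, 6]],
    ![[3, 8, 6, 1], [1, 6, 8, 3], [1, 0, 5, 7]],
    ![[4, 9, 7, 2], [2, 7, 9, 4], [2, 1, 6, 8]],
    ![[9, 6, 8, 3], [3, 2, 7, 9], [3, 2, 1, 0]],
    ![[7, 2, 1, 0], [0, 1, 2, 7], [0, 1, 6, 8]],
    ![[8, 3, 2, 1], [1, 2, 3, 8], [1, 2, 7, 9]],
    ![[5, 0, 1, 2], [2, 1, 0, 5], [2, 1, 6, 9]],
    ![[6, 1, 2, 3], [3, 2, 1, 6], [3, 2, 7, 5]],
    ![[6, 8, 3, 4], [4, 3, 8, 6], [4, 3, 2, 7]]]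

/-- Paths. -/
def pth : Fin 10 → List (Fin 10) :=
  ![[], [1], [1, 2], [1, 2, 3], [1, 2, 3, 4], [5], [1, 6], [5, 7], [1, 6, 8], [1, 6, 9]]

theorem det_ok : ∀ a t, chk a (nbr a t) a (det a t) (nbr a t) = true := by decide

theorem pth_ok : ∀ a, chk 0 0 0 (pth a) a = true := by decide

/-- Inner edges survive the deletion of another edge. -/
theorem del_inner (i : Fin n) {x y : Fin n × Fin 10} {a b : Fin 10} (h : inn a b = true)
    (hne : s((i, a), (i, b)) ≠ s(x, y)) :
    ((chain n).deleteEdges {s(x, y)}).Adj (i, a) (i, b) := by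
  rw [deleteEdges_adj]
  exact ⟨inn_adj i h, hne⟩

theorem reach_same (i : Fin n) {H : SimpleGraph (Fin n × Fin 10)}
    (hH : ∀ a b, inn a b = true → H.Adj (i, a) (i, b)) (u v : Fin 10) :
    H.Reachable (i, u) (i, v) :=
  ((chk_reach i 0 0 (fun a b h _ => hH a b h) _ _ _ (pth_ok u)).symm).trans
    (chk_reach i 0 0 (fun a b h _ => hH a b h) _ _ _ (pth_ok v))

theorem link_aux (i j : Fin n) (hij : i.val + 1 = j.val) :
    (chain n).Adj (i, 5) (j, 0) ∧ (chain n).Adj (i, 8) (j, 4) := by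
  have hi : i.val + 1 < n := by have := j.isLt; omega
  have hj : (⟨i.val + 1, hi⟩ : Fin n) = j := Fin.ext hij
  constructor
  · exact ⟨2, by rw [(NB_high i hi).1, hj]⟩
  · exact ⟨2, by rw [(NB_high i hi).2, hj]⟩

theorem reach_link (i j : Fin n) (hij : i.val + 1 = j.val) :
    ((chain n).deleteEdges {s((i, 5), (j, 0))}).Reachable (i, 5) (j, 0) ∧
    ((chain n).deleteEdges {s((i, 8), (j, 4))}).Reachable (i, 8) (j, 4) := by
  have hne : i ≠ j := fun h => by rw [h] at hij; omega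
  constructor
  · have h1 : ((chain n).deleteEdges {s((i, 5), (j, 0))}).Reachable (i, 5) (i, 8) := by
      refine reach_same i (fun a b h => del_inner i h ?_) 5 8
      intro hh
      rw [Sym2.eq_iff] at hh
      rcases hh with ⟨_, hh⟩ | ⟨hh, _⟩
      · exact hne (congrArg Prod.fst hh)
      · exact hne (congrArg Prod.fst hh)
    have h2 : ((chain n).deleteEdges {s((i, 5), (j, 0))}).Reachable (j, 4) (j, 0) := by
      refine reach_same j (fun a b h => del_inner j h ?_) 4 0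
      intro hh
      rw [Sym2.eq_iff] at hh
      rcases hh with ⟨hh, _⟩ | ⟨_, hh⟩
      · exact hne (congrArg Prod.fst hh).symm
      · exact hne (congrArg Prod.fst hh).symm
    refine (h1.trans (SimpleGraph.Adj.reachable ?_)).trans h2
    rw [deleteEdges_adj]
    refine ⟨(link_aux i j hij).2, ?_⟩
    intro hh
    rw [Set.mem_singleton_iff, Sym2.eq_iff] at hh
    rcases hh with ⟨hh, _⟩ | ⟨hh, _⟩
    · exact absurd (congrArg Prod.snd hh) (by simp)
    · exact absurd (congrArg Prod.snd hh) (by simp)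
  · have h1 : ((chain n).deleteEdges {s((i, 8), (j, 4))}).Reachable (i, 8) (i, 5) := by
      refine reach_same i (fun a b h => del_inner i h ?_) 8 5
      intro hh
      rw [Sym2.eq_iff] at hh
      rcases hh with ⟨_, hh⟩ | ⟨hh, _⟩
      · exact hne (congrArg Prod.fst hh)
      · exact hne (congrArg Prod.fst hh)
    have h2 : ((chain n).deleteEdges {s((i, 8), (j, 4))}).Reachable (j, 0) (j, 4) := by
      refine reach_same j (fun a b h => del_inner j h ?_) 0 4
      intro hh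
      rw [Sym2.eq_iff] at hh
      rcases hh with ⟨hh, _⟩ | ⟨_, hh⟩
      · exact hne (congrArg Prod.fst hh).symm
      · exact hne (congrArg Prod.fst hh).symm
    refine (h1.trans (SimpleGraph.Adj.reachable ?_)).trans h2
    rw [deleteEdges_adj]
    refine ⟨(link_aux i j hij).1, ?_⟩
    intro hh
    rw [Set.mem_singleton_iff, Sym2.eq_iff] at hh
    rcases hh with ⟨hh, _⟩ | ⟨hh, _⟩
    · exact absurd (congrArg Prod.snd hh) (by simp)
    · exact absurd (congrArg Prod.snd hh) (by simp)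

theorem reach_slot (x : Fin n × Fin 10) (t : Fin 3) :
    ((chain n).deleteEdges {s(x, NB x t)}).Reachable x (NB x t) := by
  have gen : ∀ (i : Fin n) (a : Fin 10) (t : Fin 3),
      ((chain n).deleteEdges {s((i, a), (i, nbr a t))}).Reachable (i, a) (i, nbr a t) := by
    intro i a t
    refine chk_reach i a (nbr a t) ?_ _ _ _ (det_ok a t)
    intro u v h hne
    refine del_inner i h ?_
    intro hh
    rw [Sym2.eq_iff] at hh
    apply hne
    rcases hh with ⟨h1, h2⟩ | ⟨h1, h2⟩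
    · exact Or.inl ⟨congrArg Prod.snd h1, congrArg Prod.snd h2⟩
    · exact Or.inr ⟨congrArg Prod.snd h1, congrArg Prod.snd h2⟩
  obtain ⟨i, a⟩ := x
  by_cases hin : t = 2 → a ≠ 0 ∧ a ≠ 4 ∧ a ≠ 5 ∧ a ≠ 8
  · rw [NB_inner i a t hin]
    exact gen i a t
  · push Not at hin
    obtain ⟨rfl, ha⟩ := hin
    by_cases h04 : a = 0 ∨ a = 4
    · by_cases hi : i.val = 0
      · rcases h04 with rfl | rfl
        · have := gen i 0 2
          rw [(NB_low0 i hi).1]; exact this
        · have := gen i 4 2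
          rw [(NB_low0 i hi).2]; exact this
      · have hlt : i.val - 1 < n := lt_of_le_of_lt (Nat.sub_le _ _) i.isLt
        have hr := reach_link (⟨i.val - 1, hlt⟩ : Fin n) i (by simp only; omega)
        rcases h04 with rfl | rfl
        · rw [(NB_low i hi).1, Sym2.eq_swap]; exact hr.1.symm
        · rw [(NB_low i hi).2, Sym2.eq_swap]; exact hr.2.symm
    · have h58 : a = 5 ∨ a = 8 := by
        push Not at h04
        by_cases h5 : a = 5
        · exact Or.inl h5
        · exact Or.inr (ha h04.1 h04.2 h5)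
      by_cases hi : i.val + 1 < n
      · have hr := reach_link i (⟨i.val + 1, hi⟩ : Fin n) rfl
        rcases h58 with rfl | rfl
        · rw [(NB_high i hi).1]; exact hr.1
        · rw [(NB_high i hi).2]; exact hr.2
      · rcases h58 with rfl | rfl
        · have := gen i 5 2
          rw [(NB_high0 i hi).1]; exact this
        · have := gen i 8 2
          rw [(NB_high0 i hi).2]; exact this

theorem bridgeless : ∀ e ∈ (chain n).edgeSet, ¬ (chain n).IsBridge e := by
  intro e he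
  induction e using Sym2.ind with
  | _ a b =>
    obtain ⟨t, ht⟩ := he
    have ht' : NB a t = b := ht
    rw [isBridge_iff, not_not, ← ht']
    exact reach_slot a t

theorem connected (hn : 1 ≤ n) : (chain n).Connected := by
  have h0 : ∀ k (hk : k < n), (chain n).Reachable (⟨0, hn⟩, 0) (⟨k, hk⟩, 0) := by
    intro k
    induction k with
    | zero => intro _; exact SimpleGraph.Reachable.refl _
    | succ k ih =>
      intro hk
      have hk' : k < n := by omega
      refine ((ih hk').trans (reach_same ⟨k, hk'⟩ (fun a b h => inn_adj _ h) 0 5)).trans ?_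
      exact (link_aux ⟨k, hk'⟩ ⟨k + 1, hk⟩ rfl).1.reachable
  have h1 : ∀ x : Fin n × Fin 10, (chain n).Reachable (⟨0, hn⟩, 0) x := by
    rintro ⟨i, a⟩
    exact (h0 i.val i.isLt).trans (reach_same i (fun a b h => inn_adj _ h) 0 a)
  have : Nonempty (Fin n × Fin 10) := ⟨(⟨0, hn⟩, 0)⟩
  exact ⟨fun x y => (h1 x).symm.trans (h1 y)⟩

end Q130.FR
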