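import Mathlib

/-!
# Resistance and flow resistance of cubic graphs
-/

namespace Q130.FR

open SimpleGraph

variable {V : Type}

/-- `c` is a proper edge colouring of `G` (only the values on edges matter). -/
def Proper (G : SimpleGraph V) {m : ℕ} (c : Sym2 V → Fin m) : Prop :=
  ∀ e ∈ G.edgeSet, ∀ f ∈ G.edgeSet, e ≠ f → (∃ v, v ∈ e ∧ v ∈ f) → c e ≠ c f

/-- The resistance: the smallest size of a colour class over all proper 4-edge-colourings. -/
noncomputable def resistance (G : SimpleGraph V) : ℕ :=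
  sInf {k | ∃ c : Sym2 V → Fin 4, Proper G c ∧ ∃ i, k = {e | e ∈ G.edgeSet ∧ c e = i}.ncard}

open Classical in
/-- `(D, φ)` is a 4-flow; the orientation `D` is given by the tail `tail e` of each edge `e`. -/
structure IsFourFlow [Fintype V] (G : SimpleGraph V) (tail : Sym2 V → V) (φ : Sym2 V → ℤ) :
    Prop where
  mem : ∀ e ∈ G.edgeSet, tail e ∈ e
  bound : ∀ e ∈ G.edgeSet, |φ e| ≤ 3
  cons : ∀ v, ∑ e ∈ G.edgeFinset.filter (fun e => v ∈ e ∧ tail e = v), φ e =
    ∑ e ∈ G.edgeFinset.filter (fun e => v ∈ e ∧ tail e ≠ v), φ e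

/-- The flow resistance: the least number of zero edges of a 4-flow. -/
noncomputable def flowResistance [Fintype V] (G : SimpleGraph V) : ℕ :=
  sInf {k | ∃ (tail : Sym2 V → V) (φ : Sym2 V → ℤ), IsFourFlow G tail φ ∧
    k = {e | e ∈ G.edgeSet ∧ φ e = 0}.ncard}

end Q130.FR
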