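import Pool.Agent.Q130.FR.Chain

/-!
# Every 4-flow on the chain of `n` Petersen graphs has at least `n` zeros
-/

namespace Q130.FR

open SimpleGraph Finset

variable {n : ℕ}

/-- The edge in slot `t` at `x`. -/
def ed (x : Fin n × Fin 10) (t : Fin 3) : Sym2 (Fin n × Fin 10) := s(x, NB x t)

theorem ed_mem (x : Fin n × Fin 10) (t : Fin 3) : ed x t ∈ (chain n).edgeSet :=
  adj_NB x t

theorem ed_inj (x : Fin n × Fin 10) : Function.Injective (ed x) := by
  intro s t h
  rw [ed, ed, Sym2.eq_iff] at h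
  rcases h with h | h
  · exact NB_inj x h.2
  · exact absurd h.2 (NB_ne x s)

theorem ed_mate (x : Fin n × Fin 10) (t : Fin 3) : ed (NB x t) (mate x.2 t) = ed x t := by
  rw [ed, ed, NB_NB, Sym2.eq_swap]

open Classical in
/-- The signed value leaving `x` along slot `t`. -/
noncomputable def out (tail : Sym2 (Fin n × Fin 10) → Fin n × Fin 10)
    (φ : Sym2 (Fin n × Fin 10) → ℤ) (x : Fin n × Fin 10) (t : Fin 3) : ℤ :=
  if tail (ed x t) = x then φ (ed x t) else - φ (ed x t)

variable {tail : Sym2 (Fin n × Fin 10) → Fin n × Fin 10} {φ : Sym2 (Fin n × Fin 10) → ℤ}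

theorem out_bound (h : IsFourFlow (chain n) tail φ) (x : Fin n × Fin 10) (t : Fin 3) :
    |out tail φ x t| ≤ 3 := by
  unfold out
  split_ifs
  · exact h.bound _ (ed_mem x t)
  · rw [abs_neg]; exact h.bound _ (ed_mem x t)

theorem out_zero {x : Fin n × Fin 10} {t : Fin 3} (h : out tail φ x t = 0) :
    φ (ed x t) = 0 := by
  unfold out at h
  split_ifs at h
  · exact h
  · exact neg_eq_zero.mp h

theorem out_skew (h : IsFourFlow (chain n) tail φ) (x : Fin n × Fin 10) (t : Fin 3) :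
    out tail φ x t = - out tail φ (NB x t) (mate x.2 t) := by
  unfold out
  rw [ed_mate]
  have hm := h.mem _ (ed_mem x t)
  rw [ed, Sym2.mem_iff] at hm
  have hne := NB_ne x t
  rcases hm with hm | hm
  · rw [if_pos (by rw [ed]; exact hm), if_neg (by rw [ed, hm]; exact fun h => hne h.symm)]
    simp
  · rw [if_neg (by rw [ed, hm]; exact hne), if_pos (by rw [ed]; exact hm)]

theorem out_cons (h : IsFourFlow (chain n) tail φ) (x : Fin n × Fin 10) :
    out tail φ x 0 + out tail φ x 1 + out tail φ x 2 = 0 := by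
  classical
  have h1 := h.cons x
  have h2 : ∑ e ∈ ((chain n).edgeFinset.filter (fun e => x ∈ e)),
      (if tail e = x then φ e else - φ e) = 0 := by
    rw [Finset.sum_ite, Finset.filter_filter, Finset.filter_filter, Finset.sum_neg_distrib]
    have e1 : ∑ e ∈ ((chain n).edgeFinset.filter (fun e => x ∈ e ∧ tail e = x)), φ e =
      ∑ e ∈ ((chain n).edgeFinset.filter (fun e => x ∈ e ∧ tail e ≠ x)), φ e := by
      convert h1
    rw [e1]
    exact add_neg_cancel _
  have h3 : (chain n).edgeFinset.filter (fun e => x ∈ e) = (univ : Finset (Fin 3)).image (ed x) := by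
    ext e
    simp only [mem_filter, mem_edgeFinset, mem_image, mem_univ, true_and]
    constructor
    · rintro ⟨he, hx⟩
      induction e using Sym2.ind with
      | _ a b =>
        rw [Sym2.mem_iff] at hx
        rcases hx with rfl | rfl
        · obtain ⟨t, ht⟩ := he
          exact ⟨t, by rw [ed, ht]⟩
        · obtain ⟨t, ht⟩ := (SimpleGraph.mem_edgeSet _).1 he |>.symm
          exact ⟨t, by rw [ed, ht, Sym2.eq_swap]⟩
    · rintro ⟨t, rfl⟩
      exact ⟨ed_mem x t, Sym2.mem_mk_left _ _⟩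
  rw [h3, Finset.sum_image (fun a _ b _ hab => ed_inj x hab), Fin.sum_univ_three] at h2
  exact h2

/-! ## Slots -/

theorem NB_inner (i : Fin n) (a : Fin 10) (t : Fin 3) (h : (t = 2 → a ≠ 0 ∧ a ≠ 4 ∧ a ≠ 5 ∧ a ≠ 8)) :
    NB (i, a) t = (i, nbr a t) := by
  unfold NB
  rw [if_neg, dif_neg]
  · rintro ⟨_, h2, h3⟩
    rcases h3 with h3 | h3
    · exact (h h2).2.2.1 h3
    · exact (h h2).2.2.2 h3
  · rintro ⟨_, h2, h3⟩
    rcases h3 with h3 | h3
    · exact (h h2).1 h3
    · exact (h h2).2.1 h3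

theorem NB_low (i : Fin n) (hi : i.val ≠ 0) :
    NB (i, 0) 2 = (⟨i.val - 1, lt_of_le_of_lt (Nat.sub_le _ _) i.isLt⟩, 5) ∧
    NB (i, 4) 2 = (⟨i.val - 1, lt_of_le_of_lt (Nat.sub_le _ _) i.isLt⟩, 8) := by
  constructor <;> simp [NB, hi]

theorem NB_high (i : Fin n) (hi : i.val + 1 < n) :
    NB (i, 5) 2 = (⟨i.val + 1, hi⟩, 0) ∧ NB (i, 8) 2 = (⟨i.val + 1, hi⟩, 4) := by
  constructor <;> simp [NB, hi]

theorem NB_low0 (i : Fin n) (hi : i.val = 0) :
    NB (i, 0) 2 = (i, 4) ∧ NB (i, 4) 2 = (i, 0) := by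
  constructor <;> simp [NB, nbr, hi]

theorem NB_high0 (i : Fin n) (hi : ¬ i.val + 1 < n) :
    NB (i, 5) 2 = (i, 8) ∧ NB (i, 8) 2 = (i, 5) := by
  constructor <;> simp [NB, nbr, hi]

/-- Skewness inside a copy. -/
theorem skew_inner (h : IsFourFlow (chain n) tail φ) (i : Fin n) (a : Fin 10) (t : Fin 3)
    (ha : (t = 2 → a ≠ 0 ∧ a ≠ 4 ∧ a ≠ 5 ∧ a ≠ 8)) :
    out tail φ (i, a) t = - out tail φ (i, nbr a t) (mate a t) := by
  have := out_skew h (i, a) t
  rwa [NB_inner i a t ha] at this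

/-- In each copy the sum of the four special values is zero. -/
theorem four (h : IsFourFlow (chain n) tail φ) (i : Fin n) :
    out tail φ (i, 0) 2 + out tail φ (i, 4) 2 + out tail φ (i, 5) 2 + out tail φ (i, 8) 2 = 0 := by
  have c0 := out_cons h (i, 0)
  have c1 := out_cons h (i, 1)
  have c2 := out_cons h (i, 2)
  have c3 := out_cons h (i, 3)
  have c4 := out_cons h (i, 4)
  have c5 := out_cons h (i, 5)
  have c6 := out_cons h (i, 6)
  have c7 := out_cons h (i, 7)
  have c8 := out_cons h (i, 8)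
  have c9 := out_cons h (i, 9)
  have s2 : out tail φ (i, 1) 0 = - out tail φ (i, 0) 0 := skew_inner h i 1 0 (by decide)
  have s3 : out tail φ (i, 2) 0 = - out tail φ (i, 1) 1 := skew_inner h i 2 0 (by decide)
  have s4 : out tail φ (i, 3) 0 = - out tail φ (i, 2) 1 := skew_inner h i 3 0 (by decide)
  have s5 : out tail φ (i, 4) 0 = - out tail φ (i, 3) 1 := skew_inner h i 4 0 (by decide)
  have s6 : out tail φ (i, 5) 0 = - out tail φ (i, 0) 1 := skew_inner h i 5 0 (by decide)
  have s7 : out tail φ (i, 6) 0 = - out tail φ (i, 1) 2 := skew_inner h i 6 0 (by decide)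
  have s8 : out tail φ (i, 7) 0 = - out tail φ (i, 2) 2 := skew_inner h i 7 0 (by decide)
  have s9 : out tail φ (i, 8) 0 = - out tail φ (i, 3) 2 := skew_inner h i 8 0 (by decide)
  have s10 : out tail φ (i, 9) 0 = - out tail φ (i, 4) 1 := skew_inner h i 9 0 (by decide)
  have s11 : out tail φ (i, 7) 1 = - out tail φ (i, 5) 1 := skew_inner h i 7 1 (by decide)
  have s12 : out tail φ (i, 9) 2 = - out tail φ (i, 7) 2 := skew_inner h i 9 2 (by decide)
  have s13 : out tail φ (i, 6) 2 = - out tail φ (i, 9) 1 := skew_inner h i 6 2 (by decide)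
  have s14 : out tail φ (i, 8) 1 = - out tail φ (i, 6) 1 := skew_inner h i 8 1 (by decide)
  linarith

/-- The cut before copy `i` carries nothing. -/
theorem cut (h : IsFourFlow (chain n) tail φ) : ∀ (k : ℕ) (hk : k < n),
    out tail φ (⟨k, hk⟩, 0) 2 + out tail φ (⟨k, hk⟩, 4) 2 = 0 := by
  intro k
  induction k with
  | zero =>
    intro hk
    have := out_skew h (⟨0, hk⟩, 0) 2
    rw [(NB_low0 ⟨0, hk⟩ rfl).1] at this
    have e : mate 0 2 = 2 := by decide
    simp only [e] at this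
    rw [this]; ring
  | succ k ih =>
    intro hk
    have hk' : k < n := by omega
    have h1 := ih hk'
    have h2 := four h ⟨k, hk'⟩
    have h3 := out_skew h (⟨k, hk'⟩, 5) 2
    have h4 := out_skew h (⟨k, hk'⟩, 8) 2
    rw [(NB_high ⟨k, hk'⟩ hk).1] at h3
    rw [(NB_high ⟨k, hk'⟩ hk).2] at h4
    have e5 : mate 5 2 = 2 := by decide
    have e8 : mate 8 2 = 2 := by decide
    simp only [e5] at h3
    simp only [e8] at h4
    linarith

theorem cut5 (h : IsFourFlow (chain n) tail φ) (i : Fin n) :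
    out tail φ (i, 5) 2 + out tail φ (i, 8) 2 = 0 := by
  have h1 := cut h i.val i.isLt
  have h2 := four h i
  have e : (⟨i.val, i.isLt⟩ : Fin n) = i := rfl
  rw [e] at h1
  linarith

/-- Each copy has a zero. -/
theorem exists_zero (h : IsFourFlow (chain n) tail φ) (i : Fin n) :
    ∃ a t, out tail φ (i, a) t = 0 := by
  refine petersen (fun a t => out tail φ (i, a) t) ?_ (fun a => out_cons h (i, a))
    (fun a t => out_bound h (i, a) t)
  intro a t
  by_cases ha : t = 2 → a ≠ 0 ∧ a ≠ 4 ∧ a ≠ 5 ∧ a ≠ 8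
  · exact skew_inner h i a t ha
  · push Not at ha
    obtain ⟨rfl, ha⟩ := ha
    have hcut := cut h i.val i.isLt
    have e : (⟨i.val, i.isLt⟩ : Fin n) = i := rfl
    rw [e] at hcut
    have hcut5 := cut5 h i
    by_cases h0 : a = 0
    · subst h0
      show out tail φ (i, 0) 2 = - out tail φ (i, 4) 2
      linarith
    by_cases h4 : a = 4
    · subst h4
      show out tail φ (i, 4) 2 = - out tail φ (i, 0) 2
      linarith
    by_cases h5 : a = 5
    · subst h5
      show out tail φ (i, 5) 2 = - out tail φ (i, 8) 2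
      linarith
    have h8 := ha h0 h4 h5
    subst h8
    show out tail φ (i, 8) 2 = - out tail φ (i, 5) 2
    linarith

/-- The edge `e` is owned by copy `i`. -/
def Own (i : Fin n) (e : Sym2 (Fin n × Fin 10)) : Prop :=
  (∃ a b, e = s((i, a), (i, b))) ∨ (∃ j : Fin n, j ≠ i ∧ e = s((i, 4), (j, 8))) ∨
    (∃ j : Fin n, j ≠ i ∧ e = s((i, 5), (j, 0)))

theorem Own.unique {i j : Fin n} {e : Sym2 (Fin n × Fin 10)} (h : Own i e) (h' : Own j e) :
    i = j := by
  rcases h with ⟨a, b, rfl⟩ | ⟨k, hk, rfl⟩ | ⟨k, hk, rfl⟩ <;>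
  rcases h' with ⟨a', b', h'⟩ | ⟨k', hk', h'⟩ | ⟨k', hk', h'⟩ <;>
  rw [Sym2.eq_iff] at h' <;>
  rcases h' with ⟨h1, h2⟩ | ⟨h1, h2⟩ <;>
  simp only [Prod.mk.injEq] at h1 h2
  all_goals first
    | exact h1.1
    | exact absurd h1.2 (by decide)
    | exact absurd h2.2 (by decide)
    | exact absurd (h2.1.trans h1.1.symm) hk
    | exact absurd (h1.1.symm.trans h2.1).symm hk'
    | exact absurd (h1.1.symm.trans h2.1) hk'

theorem exists_own (h : IsFourFlow (chain n) tail φ) (i : Fin n) :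
    ∃ e ∈ (chain n).edgeSet, φ e = 0 ∧ Own i e := by
  obtain ⟨a, t, hz⟩ := exists_zero h i
  by_cases ha : t = 2 → a ≠ 0 ∧ a ≠ 4 ∧ a ≠ 5 ∧ a ≠ 8
  · refine ⟨ed (i, a) t, ed_mem _ _, out_zero hz, Or.inl ⟨a, nbr a t, ?_⟩⟩
    rw [ed, NB_inner i a t ha]
  · push Not at ha
    obtain ⟨rfl, ha⟩ := ha
    have hcut := cut h i.val i.isLt
    have e : (⟨i.val, i.isLt⟩ : Fin n) = i := rfl
    rw [e] at hcut
    have hcut5 := cut5 h i
    by_cases h04 : a = 0 ∨ a = 4
    · have hz4 : out tail φ (i, 4) 2 = 0 := by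
        rcases h04 with rfl | rfl
        · linarith
        · exact hz
      by_cases hi : i.val = 0
      · refine ⟨ed (i, 4) 2, ed_mem _ _, out_zero hz4, Or.inl ⟨4, 0, ?_⟩⟩
        rw [ed, (NB_low0 i hi).2]
      · refine ⟨ed (i, 4) 2, ed_mem _ _, out_zero hz4, Or.inr (Or.inl
          ⟨⟨i.val - 1, lt_of_le_of_lt (Nat.sub_le _ _) i.isLt⟩, ?_, ?_⟩)⟩
        · intro hh
          have := congrArg Fin.val hh
          simp only at this
          omega
        · rw [ed, (NB_low i hi).2]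
    · have h58 : a = 5 ∨ a = 8 := by
        push Not at h04
        by_cases h5 : a = 5
        · exact Or.inl h5
        · exact Or.inr (ha h04.1 h04.2 h5)
      have hz5 : out tail φ (i, 5) 2 = 0 := by
        rcases h58 with rfl | rfl
        · exact hz
        · linarith
      by_cases hi : i.val + 1 < n
      · refine ⟨ed (i, 5) 2, ed_mem _ _, out_zero hz5, Or.inr (Or.inr ⟨⟨i.val + 1, hi⟩, ?_, ?_⟩)⟩
        · intro hh
          have := congrArg Fin.val hh
          simp only at this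
          omega
        · rw [ed, (NB_high i hi).1]
      · refine ⟨ed (i, 5) 2, ed_mem _ _, out_zero hz5, Or.inl ⟨5, 8, ?_⟩⟩
        rw [ed, (NB_high0 i hi).1]

theorem zeros (h : IsFourFlow (chain n) tail φ) :
    n ≤ {e | e ∈ (chain n).edgeSet ∧ φ e = 0}.ncard := by
  choose F hF1 hF2 hF3 using exists_own h
  have hinj : Function.Injective F := fun i j hij => (hF3 i).unique (hij ▸ hF3 j)
  have h1 : (Set.range F).ncard = n := by
    rw [← Set.image_univ, Set.ncard_image_of_injective _ hinj, Set.ncard_univ, Nat.card_fin]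
  have h2 : (Set.range F).ncard ≤ {e | e ∈ (chain n).edgeSet ∧ φ e = 0}.ncard := by
    refine Set.ncard_le_ncard ?_ (Set.toFinite _)
    rintro _ ⟨i, rfl⟩
    exact ⟨hF1 i, hF2 i⟩
  exact h1.symm.le.trans h2

theorem le_flowResistance : n ≤ flowResistance (chain n) := by
  classical
  unfold flowResistance
  apply le_csInf
  · refine ⟨_, fun e => if h : ∃ v, v ∈ e then h.choose else Quot.out e |>.1, fun _ => 0, ⟨?_, ?_, ?_⟩, rfl⟩
    · intro e _
      induction e using Sym2.ind with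
      | _ a b =>
        have h : ∃ v, v ∈ s(a, b) := ⟨a, Sym2.mem_mk_left _ _⟩
        rw [dif_pos h]
        exact h.choose_spec
    · intro e _; simp
    · intro v; simp
  · rintro k ⟨tail, φ, h, rfl⟩
    exact zeros h

end Q130.FR
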